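import Pool.Agent.Helper68.SK.Goals

/-!
# Project SK, packet STARCNT: the coefficients of the star kernel are the counts
-/

set_option autoImplicit false
set_option maxHeartbeats 1000000

namespace Pool.Agent.Helper48.SK

open Finset LaurentPolynomial Pool.Agent.Helper52.C2 Pool.Agent.Helper68.SK

/-! ### Algebra side -/

theorem geo_nat (a : ℕ) : (geo (a : ℤ) : ℝ[T;T⁻¹]) = ∑ k ∈ range a, T (k : ℤ) := by
  unfold geo
  rw [if_pos (by positivity)]
  simp

theorem U_mul_F (a b : ℕ) : ((U (a : ℤ)).mul (U (b : ℤ))).F = ∑ k ∈ range (a + b), T (k : ℤ) := by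
  show T (a : ℤ) * geo (b : ℤ) + geo (a : ℤ) * 1 = _
  rw [geo_nat, geo_nat, sum_range_add, mul_one, mul_sum, add_comm]
  congr 1
  refine sum_congr rfl (fun k _ => ?_)
  rw [← T_add]
  push_cast
  rfl

/-- `β n m j` -/
noncomputable def bt (n m j : ℕ) : ℝ :=
  ((j : ℝ) + 1) - max 0 ((j : ℝ) + 1 - n) - max 0 ((j : ℝ) + 1 - m)

theorem coeff_C_mul_T (b : ℝ) (k i : ℤ) : (C b * T k : ℝ[T;T⁻¹]).coeff i = if k = i then b else 0 := by
  have h : (C b * T k : ℝ[T;T⁻¹]) = AddMonoidAlgebra.single k b := by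
    rw [single_eq_C_mul_T]
  rw [h]
  exact Finsupp.single_apply

theorem prod_T {ι : Type} (s : Finset ι) (f : ι → ℤ) :
    ∏ j ∈ s, (T (f j) : ℝ[T;T⁻¹]) = T (∑ j ∈ s, f j) := by
  classical
  induction s using Finset.induction_on with
  | empty => simp
  | insert a s ha ih => rw [prod_insert ha, sum_insert ha, ih, T_add]

theorem starK_eq (hB : GoalBeta) (r : ℕ) (N : Fin r × Bool → ℕ) :
    starK r (fun e => U (N e : ℤ)) =
      ∑ p ∈ Fintype.piFinset (fun j : Fin r => range (N (j, false) + N (j, true))),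
        C (∑ j, bt (N (j, false)) (N (j, true)) (p j)) * T (∑ j, (p j : ℤ)) := by
  classical
  unfold starK
  have h1 : ∀ i : Fin r, (U (N (i, false) : ℤ)).F * (U (N (i, true) : ℤ)).F *
      ∏ j ∈ univ.erase i, ((U (N (j, false) : ℤ)).mul (U (N (j, true) : ℤ))).F =
      ∑ p ∈ Fintype.piFinset (fun j : Fin r => range (N (j, false) + N (j, true))),
        C (bt (N (i, false)) (N (i, true)) (p i)) * T (∑ j, (p j : ℤ)) := by
    intro i
    have h2 : (U (N (i, false) : ℤ)).F * (U (N (i, true) : ℤ)).F =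
        ∑ k ∈ range (N (i, false) + N (i, true)),
          C (bt (N (i, false)) (N (i, true)) k) * T (k : ℤ) := hB _ _
    set f : Fin r → ℕ → ℝ[T;T⁻¹] := fun j k =>
      if j = i then C (bt (N (j, false)) (N (j, true)) k) * T (k : ℤ) else T (k : ℤ) with hf
    have h3 : (U (N (i, false) : ℤ)).F * (U (N (i, true) : ℤ)).F *
      ∏ j ∈ univ.erase i, ((U (N (j, false) : ℤ)).mul (U (N (j, true) : ℤ))).F =
      ∏ j, ∑ k ∈ range (N (j, false) + N (j, true)), f j k := by
      rw [← mul_prod_erase univ _ (mem_univ i), h2]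
      congr 1
      · refine sum_congr rfl (fun k _ => ?_)
        simp [hf]
      · refine prod_congr rfl (fun j hj => ?_)
        rw [U_mul_F]
        refine sum_congr rfl (fun k _ => ?_)
        rw [mem_erase] at hj
        simp [hf, hj.1]
    rw [h3, prod_univ_sum]
    refine sum_congr rfl (fun p _ => ?_)
    rw [← mul_prod_erase univ _ (mem_univ i)]
    have h4 : ∏ x ∈ univ.erase i, f x (p x) = T (∑ j ∈ univ.erase i, (p j : ℤ)) := by
      rw [← prod_T]
      refine prod_congr rfl (fun j hj => ?_)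
      rw [mem_erase] at hj
      simp [hf, hj.1]
    rw [h4]
    have h5 : f i (p i) = C (bt (N (i, false)) (N (i, true)) (p i)) * T (p i : ℤ) := by
      simp [hf]
    rw [h5, mul_assoc, ← T_add, add_sum_erase univ (fun j => (p j : ℤ)) (mem_univ i)]
  rw [sum_congr rfl (fun i _ => h1 i), sum_comm]
  refine sum_congr rfl (fun p _ => ?_)
  rw [← sum_mul, map_sum]

theorem starK_coeff (hB : GoalBeta) (r : ℕ) (N : Fin r × Bool → ℕ) (i : ℤ) :
    (starK r (fun e => U (N e : ℤ))).coeff i =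
      ∑ p ∈ (Fintype.piFinset (fun j : Fin r => range (N (j, false) + N (j, true)))).filter
        (fun p => ∑ j, (p j : ℤ) = i),
        ∑ j, bt (N (j, false)) (N (j, true)) (p j) := by
  classical
  rw [starK_eq hB, sum_filter]
  have h : ∀ (s : Finset (Fin r → ℕ)) (F : (Fin r → ℕ) → ℝ[T;T⁻¹]),
      (∑ p ∈ s, F p).coeff i = ∑ p ∈ s, (F p).coeff i := by
    intro s F
    induction s using Finset.induction_on with
    | empty => simp
    | insert a s ha ih =>
      rw [sum_insert ha, sum_insert ha, ← ih]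
      rfl
  rw [h]
  refine sum_congr rfl (fun p _ => ?_)
  rw [coeff_C_mul_T]

/-! ### Counting side -/

/-- the vector of `p`, `σ` -/
def zv {r : ℕ} (N : Fin r × Bool → ℕ) (R : ℤ) (p : Fin r → ℕ) (σ : ℤ) :
    (Bool ⊕ Fin r) ⊕ (Fin r × Bool) → ℤ
  | .inl (.inl false) => σ
  | .inl (.inl true) => R - σ
  | .inl (.inr j) => (p j : ℤ) + 1
  | .inr e => - (N e : ℤ)

theorem push_star {r : ℕ} (z : (Bool ⊕ Fin r) ⊕ (Fin r × Bool) → ℤ) :
    push (col (Fin r × Bool) (starC r)) z (.inl true) = ∑ j, z (.inl (.inr j)) ∧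
    push (col (Fin r × Bool) (starC r)) z (.inl false) =
      z (.inl (.inl false)) + z (.inl (.inl true)) ∧
    ∀ e, push (col (Fin r × Bool) (starC r)) z (.inr e) = z (.inr e) := by
  refine ⟨?_, ?_, fun e => ?_⟩ <;>
  · unfold push
    rw [Fintype.sum_sum_type, Fintype.sum_sum_type]
    simp [col, starC, add_comm]

theorem total_star {r : ℕ} (z : (Bool ⊕ Fin r) ⊕ (Fin r × Bool) → ℤ) :
    ∑ a, z a = z (.inl (.inl false)) + z (.inl (.inl true)) + ∑ j, z (.inl (.inr j)) +
      ∑ e, z (.inr e) := by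
  rw [Fintype.sum_sum_type, Fintype.sum_sum_type]
  simp [add_comm]

/-- upper bound for `σ` -/
def hiB {r : ℕ} (N : Fin r × Bool → ℕ) (p : Fin r → ℕ) : ℤ :=
  ∑ j, ((N (j, false) : ℤ) - max 0 ((p j : ℤ) + 1 - N (j, true)))

/-- upper bound for `R - σ` -/
def atB {r : ℕ} (N : Fin r × Bool → ℕ) (p : Fin r → ℕ) : ℤ :=
  ∑ j, ((N (j, true) : ℤ) - max 0 ((p j : ℤ) + 1 - N (j, false)))

theorem bt_cast (n m j : ℕ) : bt n m j =
    ((((j : ℤ) + 1) - max 0 ((j : ℤ) + 1 - n) - max 0 ((j : ℤ) + 1 - m) : ℤ) : ℝ) := by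
  unfold bt
  push_cast
  rfl

theorem set_eq (hJ : GoalStarJ) (r : ℕ) (N : Fin r × Bool → ℕ) (i : ℤ) :
    {z : (Bool ⊕ Fin r) ⊕ (Fin r × Bool) → ℤ | z ∈ JJ (starG r) ∧
      push (col (Fin r × Bool) (starC r)) z = wt (r : ℤ) (fun e => (N e : ℤ)) i} =
    (fun q : (Σ _ : Fin r → ℕ, ℤ) => zv N (∑ e, (N e : ℤ) + 1 - (i + r)) q.1 q.2) ''
      (((Fintype.piFinset (fun j : Fin r => range (N (j, false) + N (j, true)))).filter
        (fun p => ∑ j, (p j : ℤ) = i)).sigma
        (fun p => Icc ((∑ e, (N e : ℤ) + 1 - (i + r)) - atB N p) (hiB N p)) :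
          Finset (Σ _ : Fin r → ℕ, ℤ)) := by
  classical
  set R : ℤ := ∑ e, (N e : ℤ) + 1 - (i + r) with hR
  ext z
  simp only [Set.mem_ofPred_eq, Set.mem_image, mem_coe, mem_sigma, mem_filter,
    Fintype.mem_piFinset, mem_range, mem_Icc]
  constructor
  · rintro ⟨hz, hp⟩
    obtain ⟨h1, h2, h3⟩ := push_star z
    rw [hp] at h1 h2 h3
    have h3' : ∀ e, z (.inr e) = - (N e : ℤ) := fun e => by rw [← h3 e]; rfl
    have h1' : ∑ j, z (.inl (.inr j)) = i + r := by rw [← h1]; rfl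
    have h2' : z (.inl (.inl false)) + z (.inl (.inl true)) = R := by rw [← h2]; rfl
    have htot : ∑ a, z a = 1 := hz.1
    have hneg : ∀ e, z (.inr e) ≤ 0 := fun e => by rw [h3']; simp
    obtain ⟨hr, hs⟩ := (hJ r z htot hneg).mp hz
    have hpj : ∀ j, (((z (.inl (.inr j)) - 1).toNat : ℕ) : ℤ) = z (.inl (.inr j)) - 1 := by
      intro j
      exact Int.toNat_of_nonneg (by have := (hr j).1; omega)
    refine ⟨⟨fun j => (z (.inl (.inr j)) - 1).toNat, z (.inl (.inl false))⟩, ⟨⟨?_, ?_⟩, ?_, ?_⟩, ?_⟩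
    · intro j
      have h4 := (hr j).2
      rw [h3', h3'] at h4
      have h5 := hpj j
      have h6 : ((z (.inl (.inr j)) - 1).toNat : ℤ) < (N (j, false) : ℤ) + N (j, true) := by
        rw [h5]; omega
      exact_mod_cast h6
    · show ∑ j, (((z (.inl (.inr j)) - 1).toNat : ℕ) : ℤ) = i
      rw [sum_congr rfl (fun j _ => hpj j), sum_sub_distrib, h1']
      simp
    · have h4 := hs true
      unfold atB
      have h5 : ∑ j, (- z (.inr (j, true)) -
          max 0 (z (.inl (.inr j)) + z (.inr (j, !true)))) =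
          ∑ j, ((N (j, true) : ℤ) - max 0 ((((z (.inl (.inr j)) - 1).toNat : ℕ) : ℤ) + 1 -
            N (j, false))) := by
        refine sum_congr rfl (fun j _ => ?_)
        rw [hpj j, h3', h3']
        simp only [Bool.not_true]
        congr 2 <;> ring_nf
      rw [h5] at h4
      show R - ∑ j, ((N (j, true) : ℤ) - max 0 ((((z (.inl (.inr j)) - 1).toNat : ℕ) : ℤ) + 1 -
            N (j, false))) ≤ z (.inl (.inl false))
      omega
    · have h4 := hs false
      unfold hiB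
      have h5 : ∑ j, (- z (.inr (j, false)) -
          max 0 (z (.inl (.inr j)) + z (.inr (j, !false)))) =
          ∑ j, ((N (j, false) : ℤ) - max 0 ((((z (.inl (.inr j)) - 1).toNat : ℕ) : ℤ) + 1 -
            N (j, true))) := by
        refine sum_congr rfl (fun j _ => ?_)
        rw [hpj j, h3', h3']
        simp only [Bool.not_false]
        congr 2 <;> ring_nf
      rw [h5] at h4
      exact h4
    · funext a
      rcases a with (s | j) | e
      · cases s
        · rfl
        · show R - z (.inl (.inl false)) = _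
          omega
      · show (((z (.inl (.inr j)) - 1).toNat : ℕ) : ℤ) + 1 = _
        rw [hpj]; ring
      · show - (N e : ℤ) = _
        rw [h3']
  · rintro ⟨⟨p, σ⟩, ⟨⟨hp, hpi⟩, hσ1, hσ2⟩, rfl⟩
    simp only at hp hpi hσ1 hσ2 ⊢
    have hρ : ∑ j : Fin r, ((p j : ℤ) + 1) = i + r := by
      rw [sum_add_distrib, hpi]; simp
    have htot : ∑ a, zv N R p σ a = 1 := by
      rw [total_star]
      show σ + (R - σ) + ∑ j : Fin r, ((p j : ℤ) + 1) + ∑ e, (- (N e : ℤ)) = 1
      rw [hρ, sum_neg_distrib, hR]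
      ring
    have hneg : ∀ e, zv N R p σ (.inr e) ≤ 0 := fun e => by
      show - (N e : ℤ) ≤ 0
      simp
    refine ⟨(hJ r _ htot hneg).mpr ⟨fun j => ⟨?_, ?_⟩, fun s => ?_⟩, ?_⟩
    · show (1 : ℤ) ≤ (p j : ℤ) + 1
      omega
    · show (p j : ℤ) + 1 ≤ - (- (N (j, false) : ℤ)) - (- (N (j, true) : ℤ))
      have := hp j
      omega
    · cases s
      · show σ ≤ ∑ j, (- (- (N (j, false) : ℤ)) - max 0 (((p j : ℤ) + 1) + - (N (j, true) : ℤ)))
        refine hσ2.trans (le_of_eq ?_)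
        unfold hiB
        refine sum_congr rfl (fun j _ => ?_)
        rw [neg_neg, sub_eq_add_neg ((p j : ℤ) + 1)]
      · show R - σ ≤ ∑ j, (- (- (N (j, true) : ℤ)) - max 0 (((p j : ℤ) + 1) + - (N (j, false) : ℤ)))
        have h6 : R - σ ≤ atB N p := by omega
        refine h6.trans (le_of_eq ?_)
        unfold atB
        refine sum_congr rfl (fun j _ => ?_)
        rw [neg_neg, sub_eq_add_neg ((p j : ℤ) + 1)]
    · obtain ⟨h1, h2, h3⟩ := push_star (zv N R p σ)
      funext a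
      rcases a with s | e
      · cases s
        · rw [h2]
          show σ + (R - σ) = R
          ring
        · rw [h1]
          exact hρ
      · rw [h3]; rfl

theorem zv_inj {r : ℕ} (N : Fin r × Bool → ℕ) (R : ℤ) :
    Function.Injective (fun q : (Σ _ : Fin r → ℕ, ℤ) => zv N R q.1 q.2) := by
  rintro ⟨p, σ⟩ ⟨p', σ'⟩ h
  simp only at h
  have h1 : σ = σ' := congrFun h (.inl (.inl false))
  have h2 : p = p' := by
    funext j
    have : (p j : ℤ) + 1 = (p' j : ℤ) + 1 := congrFun h (.inl (.inr j))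
    omega
  subst h1; subst h2; rfl

theorem goalStarCnt : GoalStarCnt := by
  classical
  intro _ hJ hB r n hn i
  obtain ⟨N, rfl⟩ : ∃ N : Fin r × Bool → ℕ, n = fun e => (N e : ℤ) :=
    ⟨fun e => (n e).toNat, funext fun e => (Int.toNat_of_nonneg (hn e)).symm⟩
  rw [starK_coeff hB]
  unfold cnt
  rw [set_eq hJ, Set.ncard_image_of_injective _ (zv_inj _ _), Set.ncard_coe_finset, card_sigma]
  push_cast
  refine sum_congr rfl (fun p hp => ?_)
  rw [mem_filter, Fintype.mem_piFinset] at hp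
  obtain ⟨hp1, hp2⟩ := hp
  rw [Int.card_Icc]
  have h1 : hiB N p + 1 - ((∑ e, (N e : ℤ) + 1 - (i + r)) - atB N p) =
      ∑ j, (((p j : ℤ) + 1) - max 0 ((p j : ℤ) + 1 - N (j, false)) -
        max 0 ((p j : ℤ) + 1 - N (j, true))) := by
    have h2 : ∑ e, (N e : ℤ) = ∑ j : Fin r, ((N (j, false) : ℤ) + N (j, true)) := by
      rw [Fintype.sum_prod_type]
      refine sum_congr rfl (fun j _ => ?_)
      simp [add_comm]
    unfold hiB atB
    rw [h2]
    have h3 : (i : ℤ) + r = ∑ j : Fin r, ((p j : ℤ) + 1) := by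
      rw [sum_add_distrib, hp2]; simp
    rw [h3]
    have h4 : ∀ A B D E : ℤ, A + 1 - ((D + 1 - E) - B) = A + B - D + E := by
      intro A B D E; ring
    rw [h4, ← sum_add_distrib, ← sum_sub_distrib, ← sum_add_distrib]
    refine sum_congr rfl (fun j _ => ?_)
    ring
  rw [h1]
  have h5 : ∀ j : Fin r, 0 ≤ (((p j : ℤ) + 1) - max 0 ((p j : ℤ) + 1 - N (j, false)) -
        max 0 ((p j : ℤ) + 1 - N (j, true))) := by
    intro j
    have h6 := hp1 j
    rw [mem_range] at h6
    omega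
  have h7 : ((((∑ j, (((p j : ℤ) + 1) - max 0 ((p j : ℤ) + 1 - N (j, false)) -
        max 0 ((p j : ℤ) + 1 - N (j, true)))).toNat : ℕ) : ℤ) : ℝ) =
      ((∑ j, (((p j : ℤ) + 1) - max 0 ((p j : ℤ) + 1 - N (j, false)) -
        max 0 ((p j : ℤ) + 1 - N (j, true))) : ℤ) : ℝ) := by
    rw [Int.toNat_of_nonneg (sum_nonneg (fun j _ => h5 j))]
  rw [← Int.cast_natCast (R := ℝ), h7, Int.cast_sum]
  exact sum_congr rfl (fun j _ => bt_cast _ _ _)

end Pool.Agent.Helper48.SK
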